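import Pool.Agent.H240.GU.Def5
import Pool.Agent.H240.CG.Fin

/-!
# GV-9: the closed geodesic of the new metric (helper643)
-/

set_option autoImplicit false

open Set Filter Topology MeasureTheory
open scoped ContDiff ComplexConjugate Real

noncomputable section

namespace Pool.Agent.H643.GV

open Pool.Agent.Y262.EG Pool.Agent.Y262.EX Pool.Agent.Y262.EL Pool.Agent.Y262.QE
open Pool.Agent.Y264.QR Pool.Agent.H240.SC Pool.Agent.H240.SG Pool.Agent.H240.CG
open Pool.Agent.H240.AL Pool.Agent.H240.GU Pool.Agent.H240.GV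

/-- the derivative of the logarithm of the modulus -/
theorem hasDerivAt_log_norm {f : ℝ → ℂ} {f' : ℂ} {x : ℝ} (hf : HasDerivAt f f' x)
    (h0 : f x ≠ 0) : HasDerivAt (fun t => Real.log ‖f t‖) (f' / f x).re x := by
  have h1 : HasDerivAt (fun t => f t / f x) (f' / f x) x := hf.div_const _
  have h2 : HasDerivAt (fun t => Complex.log (f t / f x)) (f' / f x / (f x / f x)) x := by
    refine h1.clog_real ?_
    rw [div_self h0]
    exact Complex.one_mem_slitPlane
  rw [div_self h0, div_one] at h2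
  have h3 : HasDerivAt (fun t => (Complex.log (f t / f x)).re + Real.log ‖f x‖) (f' / f x).re x := by
    have h4 := (Complex.reCLM.hasFDerivAt.comp_hasDerivAt x h2).add_const (Real.log ‖f x‖)
    exact h4
  refine h3.congr_of_eventuallyEq ?_
  have h4 : ∀ᶠ t in 𝓝 x, f t ≠ 0 := hf.continuousAt.eventually_ne h0
  filter_upwards [h4] with t ht
  rw [Complex.log_re, norm_div, Real.log_div (norm_ne_zero_iff.2 ht) (norm_ne_zero_iff.2 h0)]
  ring

theorem fd_eq (φ : ℂ → ℝ) (w v : ℂ) : fderiv ℝ φ w v = px φ w * v.re + py φ w * v.im := by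
  unfold px py
  have e : v = v.re • (1 : ℂ) + v.im • Complex.I := by
    apply Complex.ext <;> simp
  conv_lhs => rw [e]
  rw [map_add, map_smul, map_smul, smul_eq_mul, smul_eq_mul]
  ring

/-- the derivative of the exponent of the metric in the real direction -/
theorem px_Pb {Ω : Set ℂ} {φ : ℂ → ℝ} {Γ : ℂ → ℂ} {S : Set ℂ} (hO : IsOpen Ω)
    (hφ : ContDiffOn ℝ ∞ φ Ω) (hS : IsOpen S) (hΓ : DifferentiableOn ℂ Γ S) {z : ℂ} (hz : z ∈ S)
    (hm : Γ z ∈ Ω) (h0 : deriv Γ z ≠ 0) :
    px (Pb φ Γ) z = px φ (Γ z) * (deriv Γ z).re + py φ (Γ z) * (deriv Γ z).im +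
      (deriv (deriv Γ) z / deriv Γ z).re := by
  have hΓ' : DifferentiableOn ℂ (deriv Γ) S := hΓ.deriv hS
  have d1 : HasDerivAt Γ (deriv Γ z) z := (hΓ.differentiableAt (hS.mem_nhds hz)).hasDerivAt
  have d2 : HasDerivAt (deriv Γ) (deriv (deriv Γ) z) z :=
    (hΓ'.differentiableAt (hS.mem_nhds hz)).hasDerivAt
  have dφ : DifferentiableAt ℝ φ (Γ z) :=
    (hφ.differentiableOn (by simp)).differentiableAt (hO.mem_nhds hm)
  have hu : HasDerivAt (fun s : ℝ => z + (s : ℂ)) 1 0 :=
    (Complex.ofRealCLM.hasDerivAt (x := 0)).const_add z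
  have hu0 : z + ((0 : ℝ) : ℂ) = z := by rw [Complex.ofReal_zero, add_zero]
  have c1 : HasDerivAt (fun s : ℝ => Γ (z + (s : ℂ))) (deriv Γ z) 0 := by
    have h1 := HasDerivAt.scomp (𝕜 := ℝ) (0 : ℝ) (h := fun s : ℝ => z + (s : ℂ)) (g₁ := Γ)
      (g₁' := deriv Γ z) (by rw [hu0]; exact d1) hu
    rw [one_smul] at h1
    exact h1
  have c2 : HasDerivAt (fun s : ℝ => deriv Γ (z + (s : ℂ))) (deriv (deriv Γ) z) 0 := by
    have h1 := HasDerivAt.scomp (𝕜 := ℝ) (0 : ℝ) (h := fun s : ℝ => z + (s : ℂ)) (g₁ := deriv Γ)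
      (g₁' := deriv (deriv Γ) z) (by rw [hu0]; exact d2) hu
    rw [one_smul] at h1
    exact h1
  have c3 : HasDerivAt (fun s : ℝ => φ (Γ (z + (s : ℂ)))) (fderiv ℝ φ (Γ z) (deriv Γ z)) 0 := by
    have h1 : HasFDerivAt φ (fderiv ℝ φ (Γ z)) (Γ (z + ((0 : ℝ) : ℂ))) := by
      rw [hu0]
      exact dφ.hasFDerivAt
    exact h1.comp_hasDerivAt (0 : ℝ) c1
  have c4 : HasDerivAt (fun s : ℝ => Real.log ‖deriv Γ (z + (s : ℂ))‖)
      (deriv (deriv Γ) z / deriv Γ z).re 0 := by
    have h1 := hasDerivAt_log_norm c2 (by rw [hu0]; exact h0)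
    rwa [hu0] at h1
  have c5 : HasDerivAt (fun s : ℝ => Pb φ Γ (z + (s : ℂ))) (fderiv ℝ φ (Γ z) (deriv Γ z) +
      (deriv (deriv Γ) z / deriv Γ z).re) 0 := c3.add c4
  have dP : DifferentiableAt ℝ (Pb φ Γ) z := by
    have e1 : DifferentiableAt ℝ (fun z => φ (Γ z)) z :=
      dφ.comp z (d1.differentiableAt.restrictScalars ℝ)
    have e2 : DifferentiableAt ℝ (fun z => Real.log ‖deriv Γ z‖) z :=
      ((d2.differentiableAt.restrictScalars ℝ).norm ℝ h0).log (norm_ne_zero_iff.2 h0)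
    exact e1.add e2
  have c6 : HasDerivAt (fun s : ℝ => Pb φ Γ (z + (s : ℂ))) (fderiv ℝ (Pb φ Γ) z 1) 0 := by
    have h1 : HasFDerivAt (Pb φ Γ) (fderiv ℝ (Pb φ Γ) z) (z + ((0 : ℝ) : ℂ)) := by
      rw [hu0]
      exact dP.hasFDerivAt
    exact h1.comp_hasDerivAt (0 : ℝ) hu
  have h7 := c6.unique c5
  rw [fd_eq φ] at h7
  exact h7

/-- `GV-9` -/
theorem stGeoG : StGeoG := by
  intro M P _ _ _ _ Ω φ pr q Γ δ hU hC hP
  have hO := hU.opn
  have hφ := hU.smooth
  have hS : IsOpen (Sx 0 δ) := by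
    have h1 : Continuous fun z : ℂ => |z.re - 0| := by fun_prop
    exact isOpen_lt h1 continuous_const
  have hmem : ∀ t : ℝ, ((t : ℂ) * Complex.I) ∈ Sx 0 δ := by
    intro t
    change |((t : ℂ) * Complex.I).re - 0| < δ
    have e : ((t : ℂ) * Complex.I).re = 0 := by simp
    rw [e, sub_zero, abs_zero]
    exact hC.δp
  have hre : ∀ t : ℝ, ((t : ℂ) * Complex.I).re = 0 := fun t => by simp
  have hΓ' : DifferentiableOn ℂ (deriv Γ) (Sx 0 δ) := hC.hol.deriv hS
  have hΓ'' : DifferentiableOn ℂ (deriv (deriv Γ)) (Sx 0 δ) := hΓ'.deriv hS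
  have hu : ∀ t : ℝ, HasDerivAt (fun t : ℝ => (t : ℂ) * Complex.I) Complex.I t := by
    intro t
    have h1 : HasDerivAt (fun t : ℝ => (t : ℂ) * Complex.I) (1 * Complex.I) t :=
      (Complex.ofRealCLM.hasDerivAt (x := t)).mul_const Complex.I
    rwa [one_mul] at h1
  have hc : ∀ t : ℝ, HasDerivAt (fun t : ℝ => Γ ((t : ℂ) * Complex.I))
      (Complex.I * deriv Γ ((t : ℂ) * Complex.I)) t := by
    intro t
    exact HasDerivAt.scomp (𝕜 := ℝ) t (h := fun s : ℝ => (s : ℂ) * Complex.I) (g₁ := Γ)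
      ((hC.hol.differentiableAt (hS.mem_nhds (hmem t))).hasDerivAt) (hu t)
  have hD : ∀ t : ℝ, HasDerivAt (fun t : ℝ => deriv Γ ((t : ℂ) * Complex.I))
      (Complex.I * deriv (deriv Γ) ((t : ℂ) * Complex.I)) t := by
    intro t
    exact HasDerivAt.scomp (𝕜 := ℝ) t (h := fun s : ℝ => (s : ℂ) * Complex.I) (g₁ := deriv Γ)
      ((hΓ'.differentiableAt (hS.mem_nhds (hmem t))).hasDerivAt) (hu t)
  have hD0 : ∀ t : ℝ, deriv Γ ((t : ℂ) * Complex.I) ≠ 0 := fun t => hC.d0 _ (hmem t)
  -- the logarithmic derivative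
  set h : ℝ → ℂ := fun t => deriv (deriv Γ) ((t : ℂ) * Complex.I) /
    deriv Γ ((t : ℂ) * Complex.I) with hh
  have hcu : Continuous fun t : ℝ => (t : ℂ) * Complex.I := by fun_prop
  have hcont : Continuous h := by
    refine Continuous.div ?_ ?_ hD0
    · exact hΓ''.continuousOn.comp_continuous hcu hmem
    · exact hΓ'.continuousOn.comp_continuous hcu hmem
  set H : ℝ → ℂ := fun t => ∫ s in (0 : ℝ)..t, h s with hH
  have hHd : ∀ t, HasDerivAt H (h t) t := fun t =>
    (hcont.integral_hasStrictDerivAt 0 t).hasDerivAt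
  have hH0 : H 0 = 0 := by
    rw [hH]
    exact intervalIntegral.integral_same
  -- the formula for the derivative of `Γ` on the line
  have hform : ∀ t : ℝ, deriv Γ ((t : ℂ) * Complex.I) =
      deriv Γ 0 * Complex.exp (Complex.I * H t) := by
    intro t
    set g : ℝ → ℂ := fun t => deriv Γ ((t : ℂ) * Complex.I) * Complex.exp (-(Complex.I * H t))
      with hg
    have hgd : ∀ t, HasDerivAt g 0 t := by
      intro t
      have h1 : HasDerivAt (fun t => Complex.exp (-(Complex.I * H t)))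
          (Complex.exp (-(Complex.I * H t)) * (-(Complex.I * h t))) t :=
        ((hHd t).const_mul Complex.I).neg.cexp
      have h2 := (hD t).mul h1
      have e : Complex.I * deriv (deriv Γ) ((t : ℂ) * Complex.I) *
          Complex.exp (-(Complex.I * H t)) + deriv Γ ((t : ℂ) * Complex.I) *
          (Complex.exp (-(Complex.I * H t)) * (-(Complex.I * h t))) = 0 := by
        have h3 : deriv Γ ((t : ℂ) * Complex.I) * h t =
            deriv (deriv Γ) ((t : ℂ) * Complex.I) := by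
          rw [hh]
          exact mul_div_cancel₀ _ (hD0 t)
        rw [← h3]
        ring
      rw [e] at h2
      exact h2
    have h1 : g t = g 0 := is_const_of_deriv_eq_zero (fun t => (hgd t).differentiableAt)
      (fun t => (hgd t).deriv) t 0
    rw [hg] at h1
    simp only [hH0, mul_zero, neg_zero, Complex.exp_zero, mul_one, Complex.ofReal_zero,
      zero_mul] at h1
    rw [← h1, mul_assoc, ← Complex.exp_add, neg_add_cancel, Complex.exp_zero, mul_one]
  have hd0 : deriv Γ 0 ≠ 0 := by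
    have := hD0 0
    rwa [Complex.ofReal_zero, zero_mul] at this
  set θ0 : ℝ := Complex.arg (Complex.I * deriv Γ 0) with hθ0
  have hpol : ∀ t : ℝ, (‖deriv Γ ((t : ℂ) * Complex.I)‖ : ℂ) *
      Complex.exp (((θ0 + (H t).re : ℝ) : ℂ) * Complex.I) =
      Complex.I * deriv Γ ((t : ℂ) * Complex.I) := by
    intro t
    have h1 : ((‖deriv Γ 0‖ : ℝ) : ℂ) * Complex.exp ((θ0 : ℂ) * Complex.I) =
        Complex.I * deriv Γ 0 := by
      have h2 := Complex.norm_mul_exp_arg_mul_I (Complex.I * deriv Γ 0)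
      rwa [norm_mul, Complex.norm_I, one_mul] at h2
    have h2 : ‖deriv Γ ((t : ℂ) * Complex.I)‖ = ‖deriv Γ 0‖ * Real.exp (-(H t).im) := by
      rw [hform t, norm_mul, Complex.norm_exp]
      simp
    rw [h2, hform t, ← mul_assoc Complex.I, ← h1]
    push_cast
    have h3 : Complex.exp (Complex.I * H t) =
        Complex.exp (-((H t).im : ℂ)) * Complex.exp (((H t).re : ℂ) * Complex.I) := by
      rw [← Complex.exp_add]
      congr 1
      conv_lhs => rw [← Complex.re_add_im (H t)]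
      ring_nf
      rw [Complex.I_sq]
      ring
    rw [h3, add_mul, Complex.exp_add]
    ring
  refine ⟨θ0, fun Fl hFl t => ?_⟩
  have hz0 : ((Γ 0, θ0) : Y) ∈ YO Ω := by
    have h1 := hC.maps _ (hmem 0)
    rw [Complex.ofReal_zero, zero_mul] at h1
    exact h1
  have key : Fl t (Γ 0, θ0) = (Γ ((t : ℂ) * Complex.I), θ0 + (H t).re) := by
    refine (tUniq Ω φ hO hφ).1 (fun t => Fl t (Γ 0, θ0))
      (fun t => (Γ ((t : ℂ) * Complex.I), θ0 + (H t).re)) univ
      isOpen_univ isPreconnected_univ (fun t _ => ⟨hFl.maps t _ hz0, hC.maps _ (hmem t)⟩)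
      (fun t _ => ⟨hFl.ode t _ hz0, ?_⟩) 0 trivial ?_ t trivial
    · have hDt := hD0 t
      obtain ⟨p1, p2⟩ := hP _ (hre t)
      have hexp : Real.exp (-φ (Γ ((t : ℂ) * Complex.I))) =
          ‖deriv Γ ((t : ℂ) * Complex.I)‖ := by
        unfold Pb at p1
        have e : -φ (Γ ((t : ℂ) * Complex.I)) = Real.log ‖deriv Γ ((t : ℂ) * Complex.I)‖ := by
          linarith
        rw [e, Real.exp_log (norm_pos_iff.2 hDt)]
      rw [px_Pb hO hφ hS hC.hol (hmem t) (hC.maps _ (hmem t)) hDt] at p2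
      have hpt := hpol t
      have hr := congrArg Complex.re hpt
      have hi := congrArg Complex.im hpt
      rw [Complex.re_ofReal_mul, Complex.exp_ofReal_mul_I_re] at hr
      rw [Complex.im_ofReal_mul, Complex.exp_ofReal_mul_I_im] at hi
      rw [Complex.I_mul_re] at hr
      rw [Complex.I_mul_im] at hi
      have e1 : XX φ (Γ ((t : ℂ) * Complex.I), θ0 + (H t).re) =
          (Complex.I * deriv Γ ((t : ℂ) * Complex.I), (h t).re) := by
        unfold XX
        simp only [hexp]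
        refine Prod.ext ?_ ?_
        · apply Complex.ext
          · rw [Complex.I_mul_re]
            exact hr
          · rw [Complex.I_mul_im]
            exact hi
        · change ‖deriv Γ ((t : ℂ) * Complex.I)‖ *
            (-(px φ (Γ ((t : ℂ) * Complex.I))) * Real.sin (θ0 + (H t).re) +
              py φ (Γ ((t : ℂ) * Complex.I)) * Real.cos (θ0 + (H t).re)) =
            (deriv (deriv Γ) ((t : ℂ) * Complex.I) / deriv Γ ((t : ℂ) * Complex.I)).re
          linear_combination -p2 - px φ (Γ ((t : ℂ) * Complex.I)) * hi +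
            py φ (Γ ((t : ℂ) * Complex.I)) * hr
      rw [e1]
      have h1 : HasDerivAt (fun t => θ0 + (H t).re) (h t).re t :=
        (Complex.reCLM.hasFDerivAt.comp_hasDerivAt t (hHd t)).const_add θ0
      exact (hc t).prodMk h1
    · rw [hFl.zero _ hz0, hH0, Complex.ofReal_zero, zero_mul, Complex.zero_re, add_zero]
  rw [key]

end Pool.Agent.H643.GV
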